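import Mathlib

/-!
# The `ℓ`-adic representations of an abelian variety and their common `ℚ`-form: definitions

Let `A` be an abelian variety over a number field `K` and `V = H₁(A(ℂ), ℚ)`, of dimension `b`. In the
intended use `Γ` is the absolute Galois group of `K`, and for a prime number `ℓ` the matrices
`ρ g` are the matrices of the elements of `Γ` on `V_ℓ(A) = V ⊗ ℚ_ℓ` in a basis of `V`, where the field
of `ℓ`-adic numbers is embedded in the field of complex numbers; `χ` is the cyclotomic character and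
`ψ` is the matrix of a Riemann form.
-/

open Polynomial

namespace Pool.Agent.R914.CF

variable {Γ : Type} [Group Γ] {b : ℕ}

/-- A representation of `Γ` on a space with a basis of `b` elements, and a character of `Γ`. -/
structure Rep (Γ : Type) [Group Γ] (b : ℕ) where
  /-- the matrices -/
  ρ : Γ →* Matrix (Fin b) (Fin b) ℂ
  /-- the cyclotomic character -/
  χ : Γ →* ℂˣ

/-- The entries of a matrix. -/
def entries (g : Matrix (Fin b) (Fin b) ℂ) : Fin b × Fin b → ℂ := fun q => g q.1 q.2

/-- The action of the matrix `g` on the tensors of degree `n`. -/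
def onTensors (n : ℕ) (g : Matrix (Fin b) (Fin b) ℂ) (v : (Fin n → Fin b) → ℂ) :
    (Fin n → Fin b) → ℂ :=
  fun I => ∑ K : Fin n → Fin b, (∏ i, g (I i) (K i)) * v K

/-- The element `g` acts like an (arithmetic) Frobenius element at a place of good reduction whose
residue field is the field with `p` elements, `p` a prime number: `χ g = p`, and the characteristic
polynomial has integral coefficients and roots of absolute value `√p`. -/
def IsFrobenius (R : Rep Γ b) (p : ℕ) (g : Γ) : Prop :=
  p.Prime ∧ (R.χ g : ℂ) = p ∧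
    (∃ P : ℤ[X], P.map (Int.castRingHom ℂ) = (R.ρ g).charpoly) ∧
    ∀ a : ℂ, (R.ρ g).charpoly.IsRoot a → ‖a‖ ^ 2 = p

/-- The theorem of Chebotarev: a polynomial in the entries of the matrices which vanishes at the
Frobenius elements of a subgroup of finite index vanishes on this subgroup. -/
def Chebotarev (R : Rep Γ b) : Prop :=
  ∀ Δ : Subgroup Γ, Δ.FiniteIndex → ∀ P : MvPolynomial (Fin b × Fin b) ℂ,
    (∀ g ∈ Δ, (∃ p, IsFrobenius R p g) → MvPolynomial.eval (entries (R.ρ g)) P = 0) →
      ∀ g ∈ Δ, MvPolynomial.eval (entries (R.ρ g)) P = 0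

/-- The closure of the image is reductive: all subgroups of finite index act semisimply on the
tensors of all degrees. -/
def IsReductive (R : Rep Γ b) : Prop :=
  ∀ Δ : Subgroup Γ, Δ.FiniteIndex → ∀ (n : ℕ) (U : Submodule ℂ ((Fin n → Fin b) → ℂ)),
    (∀ g ∈ Δ, ∀ u ∈ U, onTensors n (R.ρ g) u ∈ U) →
      ∃ U' : Submodule ℂ ((Fin n → Fin b) → ℂ),
        (∀ g ∈ Δ, ∀ u ∈ U', onTensors n (R.ρ g) u ∈ U') ∧ IsCompl U U'

/-- The properties of the `ℓ`-adic representation of an abelian variety with the Riemann form `ψ`. -/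
structure IsAbelian (R : Rep Γ b) (ψ : Matrix (Fin b) (Fin b) ℚ) : Prop where
  pairing : ∀ g, (R.ρ g).transpose * ψ.map (fun q => (q : ℂ)) * R.ρ g =
    (R.χ g : ℂ) • ψ.map (fun q => (q : ℂ))
  reductive : IsReductive R
  chebotarev : Chebotarev R

/-- The tensor `v` of degree `2 j` is a Tate tensor: it is multiplied by `χ g ^ j` by all elements
`g` of a subgroup of finite index. -/
def IsTate (R : Rep Γ b) (j : ℕ) (v : (Fin (2 * j) → Fin b) → ℂ) : Prop :=
  ∃ Δ : Subgroup Γ, Δ.FiniteIndex ∧ ∀ g ∈ Δ, onTensors (2 * j) (R.ρ g) v = (R.χ g : ℂ) ^ j • v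

/-- The invertible matrices which belong to the Zariski closure of the image of every subgroup of
finite index, that is, to the identity component of the Zariski closure of the image. -/
def identityComponent (R : Rep Γ b) : Set (Matrix (Fin b) (Fin b) ℂ) :=
  {g | IsUnit g.det ∧ ∀ Δ : Subgroup Γ, Δ.FiniteIndex → ∀ P : MvPolynomial (Fin b × Fin b) ℂ,
    (∀ h ∈ Δ, MvPolynomial.eval (entries (R.ρ h)) P = 0) → MvPolynomial.eval (entries g) P = 0}

variable {Λ : Type} (R : Λ → Rep Γ b)

/-- The identity components of the Zariski closures of the images have a common `ℚ`-form: they are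
defined by the same polynomials with rational coefficients. -/
def CommonGroup : Prop :=
  ∃ S : Set (MvPolynomial (Fin b × Fin b) ℚ), ∀ (l : Λ) (g : Matrix (Fin b) (Fin b) ℂ),
    g ∈ identityComponent (R l) ↔
      IsUnit g.det ∧ ∀ P ∈ S, MvPolynomial.aeval (entries g) P = 0

/-- The spaces of the Tate tensors of degree `2 j` have a common `ℚ`-form: they are spanned by the
same rational tensors. -/
def CommonTensors (j : ℕ) : Prop :=
  ∃ H : Set ((Fin (2 * j) → Fin b) → ℚ), ∀ (l : Λ) (v : (Fin (2 * j) → Fin b) → ℂ),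
    IsTate (R l) j v ↔ v ∈ Submodule.span ℂ {u | ∃ h ∈ H, u = fun I => ((h I : ℚ) : ℂ)}

/-- The number `N = (b ^ 2 + 1) ((2 b! + 1) (b ^ 2 + 1)) ^ (b ^ 2)`. -/
def tensorBound (b : ℕ) : ℕ :=
  (b ^ 2 + 1) * ((2 * b.factorial + 1) * (b ^ 2 + 1)) ^ (b ^ 2)

end Pool.Agent.R914.CF
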