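import Pool.Agent.W655.PG.Desc

/-!
# Subspaces stable under the automorphisms of the field of complex numbers
-/

namespace Pool.Agent.R914.CF

variable {I : Type} [Fintype I] [DecidableEq I]

/-- The support. -/
noncomputable def su (v : I → ℂ) : Finset I := by
  classical exact Finset.univ.filter fun i => v i ≠ 0

lemma mem_su {v : I → ℂ} {i : I} : i ∈ su v ↔ v i ≠ 0 := by
  classical
  rw [su, Finset.mem_filter]
  exact ⟨fun h => h.2, fun h => ⟨Finset.mem_univ _, h⟩⟩

lemma exists_rational (U : Submodule ℂ (I → ℂ)) (hU : ∀ σ : ℂ ≃+* ℂ, ∀ v ∈ U, (fun i => σ (v i)) ∈ U)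
    (k : ℕ) : ∀ v ∈ U, v ≠ 0 → (su v).card = k →
      ∃ h : I → ℚ, (fun i => (h i : ℂ)) ∈ U ∧ h ≠ 0 ∧ ∀ i, h i ≠ 0 → v i ≠ 0 := by
  induction k using Nat.strong_induction_on with
  | _ k ih =>
    intro v hv hv0 hk
    obtain ⟨i, hi⟩ := Function.ne_iff.1 hv0
    have hi' : v i ≠ 0 := hi
    set w : I → ℂ := (v i)⁻¹ • v with hw
    have hwU : w ∈ U := U.smul_mem _ hv
    have hwi : w i = 1 := by
      rw [hw, Pi.smul_apply, smul_eq_mul, inv_mul_cancel₀ hi']
    have hws : ∀ j, w j ≠ 0 → v j ≠ 0 := by
      intro j hj h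
      apply hj
      rw [hw, Pi.smul_apply, h, smul_zero]
    by_cases hfix : ∀ σ : ℂ ≃+* ℂ, ∀ j, σ (w j) = w j
    · have hrat : ∀ j, ∃ q : ℚ, (q : ℂ) = w j := fun j =>
        Pool.Agent.W655.PG.rat_of_fixed fun τ => hfix τ j
      choose h hh using hrat
      refine ⟨h, ?_, ?_, ?_⟩
      · have : (fun i => (h i : ℂ)) = w := funext hh
        rw [this]
        exact hwU
      · intro h0
        have h1 := hh i
        rw [h0, hwi] at h1
        simp at h1
      · intro j hj
        apply hws
        rw [← hh]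
        exact_mod_cast hj
    · push Not at hfix
      obtain ⟨σ, j, hj⟩ := hfix
      set u : I → ℂ := (fun i => σ (w i)) - w with hu
      have huU : u ∈ U := U.sub_mem (hU σ w hwU) hwU
      have hu0 : u ≠ 0 := by
        intro h
        apply hj
        have := congrFun h j
        simpa [hu, sub_eq_zero] using this
      have hus : ∀ l, u l ≠ 0 → w l ≠ 0 := by
        intro l hl h
        apply hl
        simp [hu, h]
      have hui : u i = 0 := by simp [hu, hwi]
      have hcard : (su u).card < k := by
        rw [← hk]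
        apply Finset.card_lt_card
        rw [Finset.ssubset_iff_of_subset (fun l hl => mem_su.2 (hws l (hus l (mem_su.1 hl))))]
        exact ⟨i, mem_su.2 hi', fun h => mem_su.1 h hui⟩
      obtain ⟨h, h1, h2, h3⟩ := ih _ hcard u huU hu0 rfl
      exact ⟨h, h1, h2, fun l hl => hws l (hus l (h3 l hl))⟩

/-- A subspace which is stable under the automorphisms of the field of complex numbers is spanned by
rational vectors. -/
theorem span_rational (U : Submodule ℂ (I → ℂ))
    (hU : ∀ σ : ℂ ≃+* ℂ, ∀ v ∈ U, (fun i => σ (v i)) ∈ U) :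
    ∀ v ∈ U, v ∈ Submodule.span ℂ {u | ∃ h : I → ℚ, u = (fun i => (h i : ℂ)) ∧ u ∈ U} := by
  have key : ∀ (k : ℕ), ∀ v ∈ U, (su v).card = k →
      v ∈ Submodule.span ℂ {u | ∃ h : I → ℚ, u = (fun i => (h i : ℂ)) ∧ u ∈ U} := by
    intro k
    induction k using Nat.strong_induction_on with
    | _ k ih =>
      intro v hv hk
      by_cases hv0 : v = 0
      · rw [hv0]
        exact Submodule.zero_mem _
      · obtain ⟨h, h1, h2, h3⟩ := exists_rational U hU k v hv hv0 hk
        obtain ⟨i, hi⟩ := Function.ne_iff.1 h2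
        have hi' : h i ≠ 0 := hi
        set c : ℂ := v i / (h i : ℂ) with hc
        set w : I → ℂ := fun i => (h i : ℂ) with hw
        have hci : (h i : ℂ) ≠ 0 := by exact_mod_cast hi'
        have hU' : v - c • w ∈ U := U.sub_mem hv (U.smul_mem _ h1)
        have hcard : (su (v - c • w)).card < k := by
          rw [← hk]
          apply Finset.card_lt_card
          rw [Finset.ssubset_iff_of_subset]
          · refine ⟨i, mem_su.2 (h3 i hi'), fun h => mem_su.1 h ?_⟩
            rw [Pi.sub_apply, Pi.smul_apply, smul_eq_mul, hc, hw, div_mul_cancel₀ _ hci, sub_self]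
          · intro l hl
            rw [mem_su] at hl ⊢
            intro hvl
            apply hl
            have hl0 : h l = 0 := by
              by_contra h4
              exact h3 l h4 hvl
            rw [Pi.sub_apply, Pi.smul_apply, hvl, hw]
            simp [hl0]
        have h4 := ih _ hcard _ hU' rfl
        have h5 : c • w ∈ Submodule.span ℂ {u | ∃ h : I → ℚ, u = (fun i => (h i : ℂ)) ∧ u ∈ U} :=
          Submodule.smul_mem _ _ (Submodule.subset_span ⟨h, rfl, h1⟩)
        have h6 := Submodule.add_mem _ h4 h5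
        rwa [sub_add_cancel] at h6
  intro v hv
  exact key _ v hv rfl

end Pool.Agent.R914.CF
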