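import Pool.Agent.R914.CF.Gal

/-!
# Representations of weight one: the identity component and the Tate tensors
-/

set_option linter.unusedSectionVars false
set_option linter.unusedVariables false

namespace Pool.Agent.R914.CF
open MvPolynomial Matrix Pool.Agent.R914.UN Pool.Agent.R914.UG Pool.Agent.R940

variable {B Γ : Type} [Fintype B] [DecidableEq B] [Group Γ]

/-- The identity component of the closure of the image. -/
def InId (G : GAct B Γ) (g : Matrix B B ℂ) : Prop :=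
  IsUnit g.det ∧ ∀ Δ : Subgroup Γ, Δ.FiniteIndex → ∀ P : MvPolynomial (B × B) ℂ,
    (∀ h ∈ Δ, ev (G.R h) P = 0) → ev g P = 0

section poly

variable {R : Type} [CommRing R] {κ : Type} [Fintype κ] [DecidableEq κ]

/-- The entries of the form. -/
noncomputable def qq (J : Matrix B B R) (i j : B) : MvPolynomial (B × B) R :=
  ∑ a, ∑ b, C (J a b) * (X (a, i) * X (b, j))

/-- The entries of the tensor. -/
noncomputable def tq (v : (κ → B) → R) (I : κ → B) : MvPolynomial (B × B) R :=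
  ∑ K, C (v K) * ∏ i, X (I i, K i)

/-- The equations for the similitudes. -/
noncomputable def fe (J : Matrix B B R) (a b i j : B) : MvPolynomial (B × B) R :=
  C (J a b) * qq J i j - C (J i j) * qq J a b

/-- The equations for a tensor. -/
noncomputable def te (J : Matrix B B R) (a b : B) (m : ℕ) (v : (κ → B) → R) (I : κ → B) :
    MvPolynomial (B × B) R :=
  C (J a b) ^ m * tq v I - C (v I) * qq J a b ^ m

end poly

variable {κ : Type} [Fintype κ] [DecidableEq κ]

lemma ev_qq (J g : Matrix B B ℂ) (i j : B) : ev g (qq J i j) = (gᵀ * J * g) i j := by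
  rw [qq, map_sum, Matrix.mul_apply]
  simp only [map_sum, map_mul, ev_C, ev_X, Matrix.mul_apply, Matrix.transpose_apply,
    Finset.sum_mul]
  rw [Finset.sum_comm]
  refine Finset.sum_congr rfl fun b _ => Finset.sum_congr rfl fun a _ => ?_
  ring

lemma ev_tq (v : (κ → B) → ℂ) (g : Matrix B B ℂ) (I : κ → B) :
    ev g (tq v I) = (tp κ g *ᵥ v) I := by
  rw [tq, map_sum, mulVec, dotProduct]
  refine Finset.sum_congr rfl fun K _ => ?_
  rw [map_mul, map_prod, ev_C, tp_apply, mul_comm]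
  simp only [ev_X]

lemma ev_fe {J g : Matrix B B ℂ} {μ : ℂ} (h : gᵀ * J * g = μ • J) (a b i j : B) :
    ev g (fe J a b i j) = 0 := by
  rw [fe, map_sub, map_mul, map_mul, ev_C, ev_C, ev_qq, ev_qq, h, Matrix.smul_apply,
    Matrix.smul_apply, smul_eq_mul, smul_eq_mul]
  ring

lemma form_of_fe {J g : Matrix B B ℂ} {a b : B} (hab : J a b ≠ 0)
    (h : ∀ i j, ev g (fe J a b i j) = 0) : gᵀ * J * g = ((gᵀ * J * g) a b / J a b) • J := by
  ext i j
  have h1 := h i j
  rw [fe, map_sub, map_mul, map_mul, ev_C, ev_C, ev_qq, ev_qq, sub_eq_zero] at h1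
  rw [Matrix.smul_apply, smul_eq_mul, div_mul_eq_mul_div, eq_div_iff hab]
  linear_combination h1

lemma ev_te {J g : Matrix B B ℂ} {μ : ℂ} (h : gᵀ * J * g = μ • J) {m : ℕ} {v : (κ → B) → ℂ}
    (hv : tp κ g *ᵥ v = μ ^ m • v) (a b : B) (I : κ → B) : ev g (te J a b m v I) = 0 := by
  rw [te, map_sub, map_mul, map_mul, map_pow, map_pow, ev_C, ev_C, ev_qq, ev_tq, h, hv,
    Matrix.smul_apply, Pi.smul_apply, smul_eq_mul, smul_eq_mul]
  ring

lemma tensor_of_te {J g : Matrix B B ℂ} {μ : ℂ} (h : gᵀ * J * g = μ • J) {a b : B}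
    (hab : J a b ≠ 0) {m : ℕ} {v : (κ → B) → ℂ} (hv : ∀ I, ev g (te J a b m v I) = 0) :
    tp κ g *ᵥ v = μ ^ m • v := by
  funext I
  have h1 := hv I
  rw [te, map_sub, map_mul, map_mul, map_pow, map_pow, ev_C, ev_C, ev_qq, ev_tq, h,
    Matrix.smul_apply, smul_eq_mul, sub_eq_zero, mul_pow] at h1
  rw [Pi.smul_apply, smul_eq_mul]
  apply mul_left_cancel₀ (pow_ne_zero m hab)
  rw [h1]
  ring

variable {G : GAct B Γ} {J : Matrix B B ℂ}

lemma W1.ss_top (h : W1 G J) (n : ℕ) : SSM (Set.range fun g : Γ => tp (Fin n) (G.R g)) := by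
  have h1 := h.ss ⊤ inferInstance n
  convert h1 using 1
  ext x
  constructor
  · rintro ⟨g, rfl⟩
    exact ⟨⟨g, trivial⟩, rfl⟩
  · rintro ⟨g, rfl⟩
    exact ⟨g, rfl⟩

lemma mu_ne {g : Matrix B B ℂ} {μ : ℂ} [Nonempty B] (hJ : IsUnit J.det) (hg : IsUnit g.det)
    (h : gᵀ * J * g = μ • J) : μ ≠ 0 := by
  rintro rfl
  rw [zero_smul] at h
  have h1 := congrArg det h
  rw [det_mul, det_mul, det_transpose, det_zero] at h1
  exact mul_ne_zero (mul_ne_zero hg.ne_zero hJ.ne_zero) hg.ne_zero h1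

/-- **The matrices which fix the Tate tensors of low degree belong to the identity component.** -/
theorem W1.inId_of (h : W1 G J) [Nonempty B] {D : ℕ} (hD : degBound (Fintype.card B) (wt B) ≤ D)
    {g : Matrix B B ℂ} (hu : IsUnit g.det) {μ : ℂ} (hg : gᵀ * J * g = μ • J)
    (hT : ∀ n ≤ 2 * D, ∀ (j : ℕ) (v : (Fin n → B) → ℂ), G.Tate j v →
      tp (Fin n) g *ᵥ v = μ ^ j • v) : InId G g := by
  have hμ := mu_ne h.unit hu hg
  obtain ⟨c, hc⟩ := IsAlgClosed.exists_pow_nat_eq μ two_pos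
  have hc0 : c ≠ 0 := by
    rintro rfl
    exact hμ (by rw [← hc]; simp)
  set g1 : Matrix B B ℂ := c⁻¹ • g with hg1
  have hgc : c • g1 = g := by rw [hg1, smul_smul, mul_inv_cancel₀ hc0, one_smul]
  have hf : g1ᵀ * J * g1 = J := by
    rw [hg1, transpose_smul, Matrix.smul_mul, Matrix.smul_mul, Matrix.mul_smul, hg, smul_smul,
      smul_smul, ← hc]
    have : c⁻¹ * c⁻¹ * c ^ 2 = 1 := by field_simp
    rw [this, one_smul]
  have hd := dual_form h.unit hf
  have hu1 : IsUnit g1.det := isUnit_of_form h.unit hf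
  have key : ∀ q ∈ vanI (gen (wt B) G.crvs : Set (Matrix B B ℂ)), ev g1 q = 0 := by
    intro q hq
    refine T6 (crv_one h.hw) hD (gen_ss h.hw fun n _ => h.ss_top n) hu1 ?_ hq
    intro n m hn hm M hM
    have hfix : ∀ x ∈ gen (wt B) G.crvs, tp (Fin n ⊕ Fin m) x *ᵥ ten J M = ten J M :=
      fun x hx => ten_of_comm (h.dualx hx) (hM x hx)
    let e : Fin n ⊕ Fin m ≃ Fin (n + m) := finSumFinEquiv
    set u' : (Fin (n + m) → B) → ℂ := fun w => ten J M (w ∘ e) with hu'
    have hfix' : G.Fixed (wt B) u' := by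
      intro x hx
      rw [hu', tp_relabel e, hfix x hx]
    have hback : ∀ f : Matrix B B ℂ, tp (Fin (n + m)) f *ᵥ u' = u' →
        tp (Fin n ⊕ Fin m) f *ᵥ ten J M = ten J M := by
      intro f hf'
      rw [hu', tp_relabel e] at hf'
      funext w
      have := congrFun hf' (w ∘ e.symm)
      have h2 : (w ∘ e.symm) ∘ e = w := by
        funext i
        simp
      rw [h2] at this
      exact this
    refine comm_of_ten h.unit hd (hback g1 ?_)
    rcases Nat.even_or_odd' (n + m) with ⟨j, hj | hj⟩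
    · have h1 : G.Tate j u' := fixed_tate h.hw h.dense (h.ss_top _) hfix'
        (h.hom (by rw [Fintype.card_fin, hj]) _)
      have h2 := hT (n + m) (by omega) j u' h1
      have h3 : c⁻¹ ^ (n + m) * μ ^ j = 1 := by
        rw [hj, ← hc, ← pow_mul, ← mul_pow, inv_mul_cancel₀ hc0, one_pow]
      rw [hg1, tp_smul, Fintype.card_fin, Matrix.smul_mulVec, h2, smul_smul, h3, one_smul]
    · have h1 : u' = 0 := fixed_odd h.hw h.dense (h.ss_top _) (m := n + m) ⟨j, hj⟩ hfix'
        (h.hom (Fintype.card_fin _) _)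
      rw [h1, mulVec_zero]
  refine ⟨hu, fun Δ hΔ P hP => ?_⟩
  have h1 := key (lt (c • (1 : Matrix B B ℂ)) P) (by
    rw [mem_vanI]
    intro x hx
    rw [ev_lt, Matrix.smul_mul, Matrix.one_mul]
    exact h.ev_sub hΔ hx c hP)
  rwa [ev_lt, Matrix.smul_mul, Matrix.one_mul, hgc] at h1

lemma exists_entry [Nonempty B] (hJ : IsUnit J.det) : ∃ a b, J a b ≠ 0 := by
  by_contra hcon
  push Not at hcon
  have h1 : J = 0 := by
    ext i j
    exact hcon i j
  rw [h1, det_zero] at hJ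
  exact not_isUnit_zero hJ

lemma W1.form_of_inId (h : W1 G J) [Nonempty B] {g : Matrix B B ℂ} (hg : InId G g) :
    ∃ μ : ℂ, gᵀ * J * g = μ • J := by
  obtain ⟨a, b, hab⟩ := exists_entry h.unit
  refine ⟨_, form_of_fe hab fun i j => ?_⟩
  exact hg.2 ⊤ inferInstance _ fun x _ => ev_fe (h.form x) a b i j

/-- The identity component fixes the Tate tensors. -/
theorem W1.tate_of_inId (h : W1 G J) [Nonempty B] {g : Matrix B B ℂ} (hg : InId G g) {μ : ℂ}
    (hμ : gᵀ * J * g = μ • J) {j : ℕ} {v : (κ → B) → ℂ} (hv : G.Tate j v) :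
    tp κ g *ᵥ v = μ ^ j • v := by
  obtain ⟨a, b, hab⟩ := exists_entry h.unit
  obtain ⟨-, Δ, hΔ, hv2⟩ := hv
  refine tensor_of_te hμ hab fun I => ?_
  exact hg.2 Δ hΔ _ fun x hx => ev_te (h.form x) (hv2 x hx) a b I

/-- A tensor which is fixed by the identity component is a Tate tensor. -/
theorem W1.tate_of_fixed (h : W1 G J) [Nonempty B] {n j : ℕ} (hn : n = 2 * j)
    {v : (Fin n → B) → ℂ}
    (hv : ∀ g, InId G g → ∀ μ : ℂ, gᵀ * J * g = μ • J → tp (Fin n) g *ᵥ v = μ ^ j • v) :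
    G.Tate j v := by
  refine fixed_tate (w := wt B) h.hw h.dense (h.ss_top _) ?_
    (h.hom (by rw [Fintype.card_fin, hn]) _)
  intro x hx
  have h1 : InId G x := by
    refine ⟨isUnit_of_form h.unit (h.formx x hx), fun Δ hΔ P hP => ?_⟩
    have := h.ev_sub hΔ hx 1 hP
    rwa [one_smul] at this
  have h2 := hv x h1 1 (by rw [one_smul]; exact h.formx x hx)
  rwa [one_pow, one_smul] at h2

end Pool.Agent.R914.CF
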