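import Pool.Agent.R914.CF.Defs
import Pool.Agent.R914.CF.Form
import Pool.Agent.R914.CF.Desc

/-!
# The common `ℚ`-form and the Tate tensors of bounded degree
-/

set_option linter.unusedSectionVars false
set_option linter.unusedVariables false

namespace Pool.Agent.R914.CF
open Matrix Pool.Agent.R914.UN Pool.Agent.R914.UG Pool.Agent.R940

variable {Γ : Type} [Group Γ] {b : ℕ}

/-- The conversion. -/
def toG (R : Rep Γ b) : GAct (Fin b) Γ where
  deg _ := 1
  R := R.ρ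
  χ := R.χ
  gr _ _ _ _ := rfl

/-- The complex matrix of the form. -/
def cJ (ψ : Matrix (Fin b) (Fin b) ℚ) : Matrix (Fin b) (Fin b) ℂ := ψ.map fun q => (q : ℂ)

lemma onTensors_eq (n : ℕ) (g : Matrix (Fin b) (Fin b) ℂ) (v : (Fin n → Fin b) → ℂ) :
    onTensors n g v = tp (Fin n) g *ᵥ v := rfl

lemma ev_eq (g : Matrix (Fin b) (Fin b) ℂ) (P : MvPolynomial (Fin b × Fin b) ℂ) :
    MvPolynomial.eval (entries g) P = ev g P := rfl

lemma toG_frob {R : Rep Γ b} {p : ℕ} {g : Γ} (h : IsFrobenius R p g) : (toG R).Frob p g := by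
  obtain ⟨hp, hχ, ⟨P, hP⟩, hroot⟩ := h
  refine ⟨hp, hχ, fun i => ?_⟩
  have hinj : Function.Injective (Int.castRingHom ℂ) := Int.cast_injective
  by_cases hi : i = 1
  · subst hi
    have hmon : P.Monic := by
      apply Polynomial.monic_of_injective hinj
      rw [hP]
      exact Matrix.charpoly_monic _
    have haev : ∀ a : ℂ, Polynomial.aeval a P = (R.ρ g).charpoly.eval a := by
      intro a
      rw [← hP, Polynomial.eval_map, Polynomial.aeval_def]
      rfl
    refine ⟨P, hmon, ?_, ?_, ?_⟩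
    · have h1 : P.natDegree = (R.ρ g).charpoly.natDegree := by
        rw [← hP, Polynomial.natDegree_map_eq_of_injective hinj]
      rw [h1, Matrix.charpoly_natDegree_eq_dim]
    · intro a
      rw [haev, Matrix.eval_charpoly, ← Matrix.exists_mulVec_eq_zero_iff]
      constructor
      · rintro ⟨x, hx0, hx⟩
        refine ⟨x, hx0, fun j _ => rfl, ?_⟩
        rw [Matrix.sub_mulVec, sub_eq_zero, Matrix.scalar_apply] at hx
        change R.ρ g *ᵥ x = a • x
        rw [← hx]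
        funext k
        rw [Matrix.mulVec_diagonal]
        rfl
      · rintro ⟨x, hx0, -, hx⟩
        refine ⟨x, hx0, ?_⟩
        change R.ρ g *ᵥ x = a • x at hx
        rw [Matrix.sub_mulVec, sub_eq_zero, Matrix.scalar_apply, hx]
        funext k
        rw [Matrix.mulVec_diagonal]
        rfl
    · intro a ha
      rw [haev] at ha
      rw [pow_one]
      exact hroot a ha
  · refine ⟨1, Polynomial.monic_one, by simp, ?_, ?_⟩
    · intro a
      rw [map_one]
      constructor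
      · intro h
        exact absurd h one_ne_zero
      · rintro ⟨x, hx0, hx1, -⟩
        obtain ⟨j, hj⟩ := Function.ne_iff.1 hx0
        exact absurd (hx1 j hj).symm hi
    · intro a ha
      rw [map_one] at ha
      exact absurd ha one_ne_zero

lemma cJ_unit {ψ : Matrix (Fin b) (Fin b) ℚ} (hψ : ψ.det ≠ 0) : IsUnit (cJ ψ).det := by
  have h1 : (cJ ψ).det = ((ψ.det : ℚ) : ℂ) := by
    have := (RingHom.map_det (algebraMap ℚ ℂ) ψ).symm
    rw [RingHom.mapMatrix_apply] at this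
    exact this
  rw [h1, isUnit_iff_ne_zero]
  exact_mod_cast hψ

lemma toG_dense {R : Rep Γ b} {ψ : Matrix (Fin b) (Fin b) ℚ} (hψ : ψ.det ≠ 0) (hb : 0 < b)
    (h : IsAbelian R ψ) : (toG R).Dense := by
  haveI : Nonempty (Fin b) := ⟨⟨0, hb⟩⟩
  obtain ⟨a, c, hac⟩ := exists_entry (cJ_unit hψ)
  intro Δ hΔ φ hφ hF
  have hpoly : ∀ f ∈ (toG R).reg, ∃ P : MvPolynomial (Fin b × Fin b) ℂ,
      ∀ g, f g = ev (R.ρ g) P := by
    intro f hf
    induction hf using Algebra.adjoin_induction with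
    | mem f hf =>
      rcases hf with ⟨i, j, rfl⟩ | hf
      · exact ⟨MvPolynomial.X (i, j), fun g => by rw [ev_X]; rfl⟩
      · rw [Set.mem_singleton_iff] at hf
        subst hf
        refine ⟨MvPolynomial.C ((cJ ψ a c)⁻¹) * qq (cJ ψ) a c, fun g => ?_⟩
        rw [map_mul, ev_C, ev_qq]
        have h1 := congrFun (congrFun (h.pairing g) a) c
        change ((R.ρ g)ᵀ * cJ ψ * R.ρ g) a c = (((R.χ g : ℂ)) • cJ ψ) a c at h1
        rw [h1, Matrix.smul_apply, smul_eq_mul]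
        change (R.χ g : ℂ) = _
        field_simp
    | algebraMap r => exact ⟨MvPolynomial.C r, fun g => by rw [ev_C]; rfl⟩
    | add f f' _ _ hf hf' =>
      obtain ⟨P, hP⟩ := hf
      obtain ⟨P', hP'⟩ := hf'
      exact ⟨P + P', fun g => by rw [map_add, ← hP, ← hP']; rfl⟩
    | mul f f' _ _ hf hf' =>
      obtain ⟨P, hP⟩ := hf
      obtain ⟨P', hP'⟩ := hf'
      exact ⟨P * P', fun g => by rw [map_mul, ← hP, ← hP']; rfl⟩
  obtain ⟨P, hP⟩ := hpoly φ hφ
  intro g hg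
  rw [hP]
  refine h.chebotarev Δ hΔ P (fun g' hg' hf => ?_) g hg
  obtain ⟨p, hp⟩ := hf
  have := hF g' hg' ⟨p, toG_frob hp⟩
  rw [hP] at this
  exact this

lemma toW1 {R : Rep Γ b} {ψ : Matrix (Fin b) (Fin b) ℚ} (hψ : ψ.det ≠ 0) (hb : 0 < b)
    (h : IsAbelian R ψ) : W1 (toG R) (cJ ψ) where
  one _ := rfl
  unit := cJ_unit hψ
  form := h.pairing
  dense := toG_dense hψ hb h
  ss Δ hΔ n := by
    intro U hU
    obtain ⟨U', h1, h2⟩ := h.reductive Δ hΔ n U (fun g hg u hu => hU _ ⟨⟨g, hg⟩, rfl⟩ u hu)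
    refine ⟨U', ?_, h2⟩
    rintro _ ⟨g, rfl⟩ u hu
    exact h1 g g.2 u hu

lemma inId_iff {R : Rep Γ b} {g : Matrix (Fin b) (Fin b) ℂ} :
    g ∈ identityComponent R ↔ InId (toG R) g := Iff.rfl

lemma tate_iff {R : Rep Γ b} {ψ : Matrix (Fin b) (Fin b) ℚ} (h : W1 (toG R) (cJ ψ)) {j : ℕ}
    {v : (Fin (2 * j) → Fin b) → ℂ} : IsTate R j v ↔ (toG R).Tate j v := by
  constructor
  · rintro ⟨Δ, hΔ, hv⟩
    exact ⟨h.hom (by rw [Fintype.card_fin]) _, Δ, hΔ, hv⟩
  · rintro ⟨-, Δ, hΔ, hv⟩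
    exact ⟨Δ, hΔ, hv⟩

/-! ### Polynomials with rational coefficients -/

lemma aeval_eq (g : Matrix (Fin b) (Fin b) ℂ) (P : MvPolynomial (Fin b × Fin b) ℚ) :
    MvPolynomial.aeval (entries g) P = ev g (MvPolynomial.map (algebraMap ℚ ℂ) P) := by
  rw [ev, MvPolynomial.eval_map, MvPolynomial.aeval_def]
  rfl

lemma map_qq (ψ : Matrix (Fin b) (Fin b) ℚ) (i j : Fin b) :
    MvPolynomial.map (algebraMap ℚ ℂ) (qq ψ i j) = qq (cJ ψ) i j := by
  rw [qq, qq, map_sum]
  refine Finset.sum_congr rfl fun a _ => ?_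
  rw [map_sum]
  refine Finset.sum_congr rfl fun c _ => ?_
  rw [map_mul, map_mul, MvPolynomial.map_C, MvPolynomial.map_X, MvPolynomial.map_X]
  rfl

lemma map_fe (ψ : Matrix (Fin b) (Fin b) ℚ) (a c i j : Fin b) :
    MvPolynomial.map (algebraMap ℚ ℂ) (fe ψ a c i j) = fe (cJ ψ) a c i j := by
  rw [fe, fe, map_sub, map_mul, map_mul, map_qq, map_qq, MvPolynomial.map_C, MvPolynomial.map_C]
  rfl

lemma map_te (ψ : Matrix (Fin b) (Fin b) ℚ) (a c : Fin b) (m : ℕ) {n : ℕ}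
    (v : (Fin n → Fin b) → ℚ) (I : Fin n → Fin b) :
    MvPolynomial.map (algebraMap ℚ ℂ) (te ψ a c m v I) =
      te (cJ ψ) a c m (fun K => ((v K : ℚ) : ℂ)) I := by
  rw [te, te, map_sub, map_mul, map_mul, map_pow, map_pow, map_qq, MvPolynomial.map_C,
    MvPolynomial.map_C]
  congr 2
  rw [tq, tq, map_sum]
  refine Finset.sum_congr rfl fun K _ => ?_
  rw [map_mul, map_prod, MvPolynomial.map_C]
  simp only [MvPolynomial.map_X]
  rfl

/-- The image of a matrix under an automorphism. -/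
lemma aeval_map (σ : ℂ ≃+* ℂ) (g : Matrix (Fin b) (Fin b) ℂ) (P : MvPolynomial (Fin b × Fin b) ℚ) :
    MvPolynomial.aeval (entries (g.map σ)) P = σ (MvPolynomial.aeval (entries g) P) := by
  have h1 := MvPolynomial.comp_aeval_apply (R := ℚ) (entries g)
    ((σ : ℂ →+* ℂ).toRatAlgHom) P
  have h2 : (σ : ℂ →+* ℂ).toRatAlgHom (MvPolynomial.aeval (entries g) P) =
      σ (MvPolynomial.aeval (entries g) P) := rfl
  rw [← h2, h1]
  rfl

lemma cJ_map (σ : ℂ ≃+* ℂ) (ψ : Matrix (Fin b) (Fin b) ℚ) : (cJ ψ).map σ = cJ ψ := by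
  ext i j
  rw [Matrix.map_apply, cJ, Matrix.map_apply, map_ratCast]

lemma tp_map' (σ : ℂ ≃+* ℂ) {n : ℕ} (g : Matrix (Fin b) (Fin b) ℂ) (v : (Fin n → Fin b) → ℂ) :
    (fun I => σ ((tp (Fin n) g *ᵥ v) I)) = tp (Fin n) (g.map σ) *ᵥ fun I => σ (v I) := by
  funext I
  rw [mulVec, mulVec, dotProduct, dotProduct, map_sum]
  refine Finset.sum_congr rfl fun K _ => ?_
  rw [map_mul, tp_apply, tp_apply, map_prod]
  rfl

variable {Λ : Type} {R : Λ → Rep Γ b} {ψ : Matrix (Fin b) (Fin b) ℚ}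

theorem group_of_tensors (hb : 0 < b) (hψ : ψ.det ≠ 0) (h : ∀ l, IsAbelian (R l) ψ)
    (hT : ∀ j ≤ tensorBound b, CommonTensors R j) : CommonGroup R := by
  haveI : Nonempty (Fin b) := ⟨⟨0, hb⟩⟩
  obtain ⟨a, c, hac⟩ := exists_entry (cJ_unit hψ)
  choose H hH using hT
  refine ⟨{P | (∃ i j, P = fe ψ a c i j) ∨ ∃ (j : ℕ) (hj : j ≤ tensorBound b), ∃ v ∈ H j hj,
    ∃ I, P = te ψ a c j v I}, fun l g => ?_⟩
  have hW := toW1 hψ hb (h l)
  rw [inId_iff]
  constructor
  · intro hg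
    refine ⟨hg.1, ?_⟩
    obtain ⟨μ, hμ⟩ := hW.form_of_inId hg
    rintro P (⟨i, j, rfl⟩ | ⟨j, hj, v, hv, I, rfl⟩)
    · rw [aeval_eq, map_fe]
      exact ev_fe hμ a c i j
    · rw [aeval_eq, map_te]
      have h1 : IsTate (R l) j (fun K => ((v K : ℚ) : ℂ)) :=
        (hH j hj l _).2 (Submodule.subset_span ⟨v, hv, rfl⟩)
      exact ev_te hμ (hW.tate_of_inId hg hμ ((tate_iff hW).1 h1)) a c I
  · rintro ⟨hu, hP⟩
    have hf : ∀ i j, ev g (fe (cJ ψ) a c i j) = 0 := by
      intro i j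
      rw [← map_fe, ← aeval_eq]
      exact hP _ (Or.inl ⟨i, j, rfl⟩)
    have hμ := form_of_fe hac hf
    refine hW.inId_of (D := tensorBound b) ?_ hu hμ ?_
    · rw [degBound, wt, Fintype.card_fin, tensorBound]
    · intro n hn j v hv
      by_cases hv0 : v = 0
      · rw [hv0, mulVec_zero, smul_zero]
      · obtain ⟨K, hK⟩ := Function.ne_iff.1 hv0
        have h1 := hv.1 K hK
        have h2 : n = 2 * j := by
          simpa [toG] using h1
        subst h2
        have hj : j ≤ tensorBound b := by omega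
        have h3 := (hH j hj l v).1 ((tate_iff hW).2 hv)
        let W : Submodule ℂ ((Fin (2 * j) → Fin b) → ℂ) :=
          { carrier := {y | tp (Fin (2 * j)) g *ᵥ y =
              ((gᵀ * cJ ψ * g) a c / cJ ψ a c) ^ j • y}
            add_mem' := fun {x y} hx hy => by
              change _ = _ at hx
              change _ = _ at hy
              change _ = _
              rw [mulVec_add, hx, hy, smul_add]
            zero_mem' := by
              change _ = _
              rw [mulVec_zero, smul_zero]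
            smul_mem' := fun t x hx => by
              change _ = _ at hx
              change _ = _
              rw [mulVec_smul, hx, smul_comm] }
        have h4 : Submodule.span ℂ {u | ∃ h ∈ H j hj, u = fun I => ((h I : ℚ) : ℂ)} ≤ W := by
          rw [Submodule.span_le]
          rintro _ ⟨u, hu', rfl⟩
          refine tensor_of_te hμ hac fun I => ?_
          rw [← map_te, ← aeval_eq]
          exact hP _ (Or.inr ⟨j, hj, u, hu', I, rfl⟩)
        exact h4 h3

/-- The tensors which are fixed by the common group. -/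
def fixT (ψ : Matrix (Fin b) (Fin b) ℚ) (S : Set (MvPolynomial (Fin b × Fin b) ℚ)) (j : ℕ) :
    Submodule ℂ ((Fin (2 * j) → Fin b) → ℂ) where
  carrier := {v | ∀ g : Matrix (Fin b) (Fin b) ℂ, IsUnit g.det →
    (∀ P ∈ S, MvPolynomial.aeval (entries g) P = 0) → ∀ μ : ℂ, gᵀ * cJ ψ * g = μ • cJ ψ →
      tp (Fin (2 * j)) g *ᵥ v = μ ^ j • v}
  add_mem' := fun {x y} hx hy g h1 h2 μ h3 => by
    rw [mulVec_add, hx g h1 h2 μ h3, hy g h1 h2 μ h3, smul_add]
  zero_mem' := fun g h1 h2 μ h3 => by rw [mulVec_zero, smul_zero]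
  smul_mem' := fun t x hx g h1 h2 μ h3 => by
    rw [mulVec_smul, hx g h1 h2 μ h3, smul_comm]

lemma mem_fixT {S : Set (MvPolynomial (Fin b × Fin b) ℚ)} {j : ℕ}
    {v : (Fin (2 * j) → Fin b) → ℂ} : v ∈ fixT ψ S j ↔
      ∀ g : Matrix (Fin b) (Fin b) ℂ, IsUnit g.det →
        (∀ P ∈ S, MvPolynomial.aeval (entries g) P = 0) → ∀ μ : ℂ, gᵀ * cJ ψ * g = μ • cJ ψ →
          tp (Fin (2 * j)) g *ᵥ v = μ ^ j • v := Iff.rfl

lemma fixT_aut (S : Set (MvPolynomial (Fin b × Fin b) ℚ)) (j : ℕ) (σ : ℂ ≃+* ℂ)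
    (v : (Fin (2 * j) → Fin b) → ℂ) (hv : v ∈ fixT ψ S j) :
    (fun I => σ (v I)) ∈ fixT ψ S j := by
  rw [mem_fixT] at hv ⊢
  intro g hg hS μ hμ
  set g' : Matrix (Fin b) (Fin b) ℂ := g.map σ.symm with hg'
  have hgg : g'.map σ = g := by
    ext i k
    rw [hg', Matrix.map_apply, Matrix.map_apply, RingEquiv.apply_symm_apply]
  have h1 : IsUnit g'.det := by
    have h2 := (RingHom.map_det (σ.symm : ℂ →+* ℂ) g).symm
    rw [RingHom.mapMatrix_apply] at h2
    change g'.det = _ at h2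
    rw [h2]
    exact hg.map _
  have h3 : ∀ P ∈ S, MvPolynomial.aeval (entries g') P = 0 := by
    intro P hP
    rw [hg', aeval_map, hS P hP, map_zero]
  have h4 : g'ᵀ * cJ ψ * g' = σ.symm μ • cJ ψ := by
    have h5 := congrArg (fun M : Matrix (Fin b) (Fin b) ℂ => M.map σ.symm) hμ
    simp only [Matrix.map_mul] at h5
    rw [cJ_map, Matrix.transpose_map] at h5
    rw [hg', h5]
    ext i k
    rw [Matrix.map_apply, Matrix.smul_apply, Matrix.smul_apply, smul_eq_mul, smul_eq_mul,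
      map_mul]
    congr 1
    exact congrFun (congrFun (cJ_map σ.symm ψ) i) k
  have h5 := hv g' h1 h3 _ h4
  have h6 := tp_map' σ g' v
  rw [hgg, h5] at h6
  rw [← h6]
  funext I
  rw [Pi.smul_apply, Pi.smul_apply, smul_eq_mul, smul_eq_mul, map_mul, map_pow,
    RingEquiv.apply_symm_apply]

theorem tensors_of_group (hb : 0 < b) (hψ : ψ.det ≠ 0) (h : ∀ l, IsAbelian (R l) ψ)
    (hG : CommonGroup R) (j : ℕ) : CommonTensors R j := by
  haveI : Nonempty (Fin b) := ⟨⟨0, hb⟩⟩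
  obtain ⟨S, hS⟩ := hG
  refine ⟨{u | (fun I => ((u I : ℚ) : ℂ)) ∈ fixT ψ S j}, fun l v => ?_⟩
  have hW := toW1 hψ hb (h l)
  have h1 : IsTate (R l) j v ↔ v ∈ fixT ψ S j := by
    rw [tate_iff hW, mem_fixT]
    constructor
    · intro hv g hg hP μ hμ
      exact hW.tate_of_inId ((inId_iff).1 ((hS l g).2 ⟨hg, hP⟩)) hμ hv
    · intro hv
      refine hW.tate_of_fixed rfl fun g hg μ hμ => ?_
      have h2 := (hS l g).1 ((inId_iff).2 hg)
      exact hv g h2.1 h2.2 μ hμ
  rw [h1]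
  constructor
  · intro hv
    have h2 := span_rational (fixT ψ S j) (fixT_aut S j) v hv
    refine Submodule.span_mono ?_ h2
    rintro _ ⟨u, rfl, hu⟩
    exact ⟨u, hu, rfl⟩
  · intro hv
    have h2 : Submodule.span ℂ {u : (Fin (2 * j) → Fin b) → ℂ |
        ∃ h ∈ {u : (Fin (2 * j) → Fin b) → ℚ | (fun I => ((u I : ℚ) : ℂ)) ∈ fixT ψ S j},
          u = fun I => ((h I : ℚ) : ℂ)} ≤ fixT ψ S j := by
      rw [Submodule.span_le]
      rintro _ ⟨u, hu, rfl⟩
      exact hu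
    exact h2 hv

/-- **The theorem.** -/
theorem main (hb : 0 < b) (hψ : ψ.det ≠ 0) (h : ∀ l, IsAbelian (R l) ψ) :
    (CommonGroup R ↔ ∀ j ≤ tensorBound b, CommonTensors R j) ∧
      ((∀ j ≤ tensorBound b, CommonTensors R j) → ∀ j, CommonTensors R j) :=
  ⟨⟨fun hG j _ => tensors_of_group hb hψ h hG j, group_of_tensors hb hψ h⟩,
    fun hT j => tensors_of_group hb hψ h (group_of_tensors hb hψ h hT) j⟩

end Pool.Agent.R914.CF
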