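import Pool.Agent.R914.CF.T6
import Pool.Agent.R914.UG.Asm

/-!
# Representations of weight one: the closure of the image of a subgroup of finite index
-/

set_option linter.unusedSectionVars false
set_option linter.unusedVariables false

namespace Pool.Agent.R914.CF
open MvPolynomial Matrix Pool.Agent.R914.UN Pool.Agent.R914.UG Pool.Agent.R940

variable {B Γ : Type} [Fintype B] [DecidableEq B] [Group Γ]

/-- The properties of the representation of weight one. -/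
structure W1 (G : GAct B Γ) (J : Matrix B B ℂ) : Prop where
  one : ∀ i, G.deg i = 1
  unit : IsUnit J.det
  form : ∀ g, (G.R g)ᵀ * J * G.R g = (G.χ g : ℂ) • J
  dense : G.Dense
  ss : ∀ Δ : Subgroup Γ, Δ.FiniteIndex → ∀ n : ℕ, SSM (Set.range fun g : Δ => tp (Fin n) (G.R g))

variable {G : GAct B Γ} {J : Matrix B B ℂ} {κ κ' : Type} [Fintype κ] [DecidableEq κ]
  [Fintype κ'] [DecidableEq κ']

/-- The bound for the slopes. -/
def wt (B : Type) [Fintype B] : ℕ := (Fintype.card B).factorial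

lemma W1.hw (h : W1 G J) : ∀ i, (Fintype.card B).factorial * G.deg i ≤ wt B := by
  intro i
  rw [h.one, mul_one, wt]

lemma W1.hom (h : W1 G J) {m : ℕ} (hm : Fintype.card κ = m) (v : (κ → B) → ℂ) :
    Hom' G.deg m v := by
  intro I _
  simp only [h.one, Finset.sum_const, Finset.card_univ, smul_eq_mul, mul_one]
  exact hm

lemma W1.formx (h : W1 G J) : ∀ x ∈ gen (wt B) G.crvs, xᵀ * J * x = J := by
  refine inv_fixed h.hw (d := 1) h.unit (fun g => ?_) (fun i j _ => ?_)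
  · rw [pow_one]
    exact h.form g
  · rw [h.one, h.one]

lemma W1.χ_ne (h : W1 G J) (g : Γ) : (G.χ g : ℂ) ≠ 0 := Units.ne_zero _

lemma W1.dual (h : W1 G J) (g : Γ) : G.R g * J⁻¹ * (G.R g)ᵀ = (G.χ g : ℂ) • J⁻¹ := by
  have h0 := h.χ_ne g
  have h1 : (G.R g)ᵀ * J * G.R g = ((G.χ g : ℂ) • (1 : Matrix B B ℂ)) * J := by
    rw [h.form, Matrix.smul_mul, Matrix.one_mul]
  have hD : IsUnit ((G.χ g : ℂ) • (1 : Matrix B B ℂ)).det := by
    rw [det_smul, det_one, mul_one]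
    exact (isUnit_iff_ne_zero.2 h0).pow _
  have h2 := inv_of_form h.unit hD h1
  have h3 : ((G.χ g : ℂ) • (1 : Matrix B B ℂ))⁻¹ = (G.χ g : ℂ)⁻¹ • 1 := by
    apply Matrix.inv_eq_right_inv
    rw [Matrix.smul_mul, Matrix.one_mul, smul_smul, mul_inv_cancel₀ h0, one_smul]
  rw [h3, Matrix.mul_smul, Matrix.mul_one, Matrix.smul_mul] at h2
  have h4 := congrArg (fun N => (G.χ g : ℂ) • N) h2
  simp only [smul_smul, mul_inv_cancel₀ h0, one_smul] at h4
  exact h4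

lemma W1.dualx (h : W1 G J) {x : Matrix B B ℂ} (hx : x ∈ gen (wt B) G.crvs) :
    x * J⁻¹ * xᵀ = J⁻¹ := dual_form h.unit (h.formx x hx)

lemma tp_smul (c : ℂ) (g : Matrix B B ℂ) : tp κ (c • g) = c ^ Fintype.card κ • tp κ g := by
  ext I K
  rw [tp_apply, Matrix.smul_apply, tp_apply, smul_eq_mul]
  simp only [Matrix.smul_apply, smul_eq_mul]
  rw [Finset.prod_mul_distrib, Finset.prod_const, Finset.card_univ]

/-- The tensor of a matrix. -/
noncomputable def ten (J : Matrix B B ℂ) {n m : ℕ} (M : Matrix (Fin n → B) (Fin m → B) ℂ) :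
    (Fin n ⊕ Fin m → B) → ℂ :=
  fun w => (M * tp (Fin m) J⁻¹) (w ∘ Sum.inl) (w ∘ Sum.inr)

lemma ten_def (J : Matrix B B ℂ) {n m : ℕ} (M : Matrix (Fin n → B) (Fin m → B) ℂ) :
    ten J M = fun w => (M * tp (Fin m) J⁻¹) (w ∘ Sum.inl) (w ∘ Sum.inr) := rfl

lemma ten_inj {n m : ℕ} {N N' : Matrix (Fin n → B) (Fin m → B) ℂ}
    (h : (fun w : Fin n ⊕ Fin m → B => N (w ∘ Sum.inl) (w ∘ Sum.inr)) =
      fun w => N' (w ∘ Sum.inl) (w ∘ Sum.inr)) : N = N' := by
  ext I K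
  have := congrFun h (Sum.elim I K)
  simpa only [Sum.elim_comp_inl, Sum.elim_comp_inr] using this

lemma tp_ten {n m : ℕ} (M : Matrix (Fin n → B) (Fin m → B) ℂ) (g : Matrix B B ℂ) :
    tp (Fin n ⊕ Fin m) g *ᵥ ten J M = fun w =>
      (tp (Fin n) g * M * tp (Fin m) (J⁻¹ * gᵀ)) (w ∘ Sum.inl) (w ∘ Sum.inr) := by
  rw [ten_def, tp_sum_mulVec, tp_mul]
  simp only [Matrix.mul_assoc]

lemma tp_isUnit {g : Matrix B B ℂ} (hg : IsUnit g.det) {m : ℕ} : IsUnit (tp (Fin m) g).det :=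
  tp_unit hg

/-- A matrix commutes with `g` if and only if its tensor is fixed by `g`. -/
lemma comm_of_ten (hJ : IsUnit J.det) {g : Matrix B B ℂ} (hg : g * J⁻¹ * gᵀ = J⁻¹) {n m : ℕ}
    {M : Matrix (Fin n → B) (Fin m → B) ℂ} (h : tp (Fin n ⊕ Fin m) g *ᵥ ten J M = ten J M) :
    tp (Fin n) g * M = M * tp (Fin m) g := by
  rw [tp_ten, ten_def] at h
  have h1 := ten_inj h
  have h2 : M * tp (Fin m) J⁻¹ = M * tp (Fin m) g * tp (Fin m) (J⁻¹ * gᵀ) := by
    rw [Matrix.mul_assoc, ← tp_mul, ← Matrix.mul_assoc g, hg]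
  rw [h2] at h1
  have hu : IsUnit (tp (Fin m) (J⁻¹ * gᵀ)).det := by
    apply tp_unit
    have h3 := congrArg det hg
    have h4 : J⁻¹.det ≠ 0 := by
      rw [det_nonsing_inv]
      simpa using hJ.ne_zero
    rw [det_mul, det_mul, det_transpose] at h3
    rw [det_mul, det_transpose, isUnit_iff_ne_zero]
    refine mul_ne_zero h4 fun h5 => h4 ?_
    rw [← h3, h5, mul_zero]
  have h3 := congrArg (fun N => N * (tp (Fin m) (J⁻¹ * gᵀ))⁻¹) h1
  simp only [Matrix.mul_assoc] at h3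
  rw [mul_nonsing_inv _ hu, Matrix.mul_one, Matrix.mul_one] at h3
  exact h3

lemma ten_of_comm {g : Matrix B B ℂ} (hg : g * J⁻¹ * gᵀ = J⁻¹) {n m : ℕ}
    {M : Matrix (Fin n → B) (Fin m → B) ℂ} (h : tp (Fin n) g * M = M * tp (Fin m) g) :
    tp (Fin n ⊕ Fin m) g *ᵥ ten J M = ten J M := by
  rw [tp_ten, ten_def, h, Matrix.mul_assoc, ← tp_mul, ← Matrix.mul_assoc g, hg]

/-- The restricted representation. -/
def resR (G : GAct B Γ) (Δ : Subgroup Γ) : Submonoid (Matrix B B ℂ) :=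
  (MonoidHom.mrange (G.R.comp Δ.subtype))

lemma mem_resR {G : GAct B Γ} {Δ : Subgroup Γ} {x : Matrix B B ℂ} :
    x ∈ resR G Δ ↔ ∃ g ∈ Δ, G.R g = x := by
  constructor
  · rintro ⟨g, rfl⟩
    exact ⟨g, g.2, rfl⟩
  · rintro ⟨g, hg, rfl⟩
    exact ⟨⟨g, hg⟩, rfl⟩

lemma W1.ss_res (h : W1 G J) {Δ : Subgroup Γ} (hΔ : Δ.FiniteIndex) (D : ℕ) :
    SSM (((resR G Δ).map (bd D) : Submonoid (Matrix (Wd B D) (Wd B D) ℂ)) :
      Set (Matrix (Wd B D) (Wd B D) ℂ)) := by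
  have h1 := ss_bd (G.R.comp Δ.subtype) D (fun n _ => h.ss Δ hΔ n)
  convert h1 using 1
  ext x
  constructor
  · rintro ⟨y, ⟨g, rfl⟩, rfl⟩
    exact ⟨g, rfl⟩
  · rintro ⟨g, rfl⟩
    exact ⟨_, ⟨g, rfl⟩, rfl⟩

/-- Frobenius elements exist in subgroups of finite index. -/
lemma exists_frob (hd : G.Dense) {Δ : Subgroup Γ} (hΔ : Δ.FiniteIndex) :
    ∃ g ∈ Δ, ∃ p, G.Frob p g := by
  by_contra hcon
  push Not at hcon
  have h1 := hd Δ hΔ (fun _ => 1) (Subalgebra.one_mem _)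
    (fun g hg ⟨p, hp⟩ => absurd hp (hcon g hg p)) 1 Δ.one_mem
  exact one_ne_zero h1

/-- Tensors of the wrong weight vanish. -/
lemma W1.weight (h : W1 G J) {Δ : Subgroup Γ} (hΔ : Δ.FiniteIndex) {m : ℕ} {u : (κ → B) → ℂ}
    (hu : ∀ g ∈ Δ, tp κ (G.R g) *ᵥ u = (G.χ g : ℂ) ^ m • u) (hm : 2 * m ≠ Fintype.card κ) :
    u = 0 := by
  obtain ⟨F, hF, p, hp⟩ := exists_frob h.dense hΔ
  by_contra hu0
  obtain ⟨P, lam, d', hE⟩ := exists_eig (G.R F) G.deg (G.gr F)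
  have hex : ∃ I : κ → B, (tp κ P⁻¹ *ᵥ u) I ≠ 0 := by
    by_contra hcon
    push Not at hcon
    apply hu0
    have h1 : tp κ P⁻¹ *ᵥ u = 0 := funext hcon
    have h2 : tp κ P *ᵥ (tp κ P⁻¹ *ᵥ u) = u := by
      rw [mulVec_mulVec, ← tp_mul, mul_nonsing_inv _ hE.unit, tp_one, one_mulVec]
    rw [← h2, h1, mulVec_zero]
  obtain ⟨I, hI⟩ := hex
  have hχ : (G.χ F : ℂ) = p := hp.2.1
  have hprod : ∏ i, lam (I i) = (p : ℂ) ^ m := by
    have := eig_pow hE (m := 1) one_pos (c := (p : ℂ) ^ m) (v := u) (by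
      rw [pow_one, hu F hF, hχ]) I hI
    rwa [pow_one] at this
  have hdeg := eig_deg hE (h.hom (κ := κ) rfl u) I hI
  have hnorm : ∀ l, ‖lam l‖ ^ 2 = (p : ℝ) ^ d' l := by
    intro l
    obtain ⟨Q, -, -, h1, h2⟩ := fx_poly hp hE l
    exact h2 _ h1
  have h1 : ‖∏ i, lam (I i)‖ ^ 2 = (p : ℝ) ^ Fintype.card κ := by
    rw [norm_prod, ← Finset.prod_pow, Finset.prod_congr rfl fun i _ => hnorm (I i),
      Finset.prod_pow_eq_pow_sum, hdeg]
  rw [hprod, norm_pow, Complex.norm_natCast, ← pow_mul, mul_comm m 2] at h1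
  have h2 : (p : ℝ) ≠ 1 := by exact_mod_cast hp.1.one_lt.ne'
  have h3 : (1 : ℝ) < p := by exact_mod_cast hp.1.one_lt
  exact hm (pow_right_injective₀ (zero_lt_one.trans h3) h2 h1)

/-- **The homotheties and the curves belong to the closure of the image of every subgroup of finite
index.** -/
theorem W1.ev_sub (h : W1 G J) {Δ : Subgroup Γ} (hΔ : Δ.FiniteIndex) {x : Matrix B B ℂ}
    (hx : x ∈ gen (wt B) G.crvs) (c : ℂ) {P : MvPolynomial (B × B) ℂ}
    (hP : ∀ g ∈ Δ, ev (G.R g) P = 0) : ev (c • x) P = 0 := by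
  refine ev_of_span (D := P.totalDegree) (G := (resR G Δ : Set (Matrix B B ℂ))) ?_ ?_ le_rfl
  · refine span_of_comm (h.ss_res hΔ _) ?_
    intro n m _ _ M hM
    have hten : ∀ g ∈ Δ, tp (Fin n ⊕ Fin m) (G.R g) *ᵥ ten J M = (G.χ g : ℂ) ^ m • ten J M := by
      intro g hg
      rw [tp_ten, hM _ (mem_resR.2 ⟨g, hg, rfl⟩), Matrix.mul_assoc, ← tp_mul,
        ← Matrix.mul_assoc (G.R g), h.dual g, tp_smul, Fintype.card_fin, Matrix.mul_smul]
      rfl
    by_cases hnm : n = m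
    · subst hnm
      have h1 : G.Tate n (ten J M) := by
        refine ⟨h.hom (by rw [Fintype.card_sum, Fintype.card_fin]; ring) _, Δ, hΔ, hten⟩
      have h2 := comm_of_ten h.unit (h.dualx hx) (tate_fixed h.hw h1 x hx)
      rw [tp_smul, Matrix.smul_mul, Matrix.mul_smul, h2]
    · have h1 : ten J M = 0 := by
        refine h.weight hΔ hten ?_
        rw [Fintype.card_sum, Fintype.card_fin, Fintype.card_fin]
        omega
      have h2 : M * tp (Fin m) J⁻¹ = 0 := by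
        apply ten_inj
        rw [← ten_def, h1]
        rfl
      have hu : IsUnit (tp (Fin m) J⁻¹).det := by
        apply tp_unit
        rw [det_nonsing_inv]
        exact h.unit.ringInverse
      have h3 : M = 0 := by
        have := congrArg (fun N => N * (tp (Fin m) J⁻¹)⁻¹) h2
        simp only [Matrix.mul_assoc] at this
        rwa [mul_nonsing_inv _ hu, Matrix.mul_one, Matrix.zero_mul] at this
      rw [h3, Matrix.mul_zero, Matrix.zero_mul]
  · intro y hy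
    obtain ⟨g, hg, rfl⟩ := mem_resR.1 hy
    exact hP g hg

end Pool.Agent.R914.CF
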