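import Pool.Agent.R914.UG.Main2

/-!
# A matrix which fixes the invariants of low degree belongs to the closure of the group
-/

set_option linter.unusedSectionVars false
set_option linter.unusedVariables false

namespace Pool.Agent.R914.CF
open MvPolynomial Matrix Pool.Agent.R914.UN Pool.Agent.R914.UG

variable {B : Type} [Fintype B] [DecidableEq B]

/-- A polynomial of low degree is a linear function of the tensor powers. -/
lemma exists_fun {D : ℕ} {p : MvPolynomial (B × B) ℂ} (hD : p.totalDegree ≤ D) :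
    ∃ Λ : Matrix (Wd B D) (Wd B D) ℂ →ₗ[ℂ] ℂ, ∀ g : Matrix B B ℂ, Λ (bd D g) = ev g p := by
  classical
  obtain ⟨β, hβ⟩ := low_of_totalDegree hD
  let Λ : Matrix (Wd B D) (Wd B D) ℂ →ₗ[ℂ] ℂ :=
    { toFun := fun Z => ∑ n : Fin (D + 1), ∑ I : Fin n → B, ∑ J : Fin n → B,
        β n I J * Z ⟨n, I⟩ ⟨n, J⟩
      map_add' := fun Z Z' => by
        simp only [Matrix.add_apply, mul_add, Finset.sum_add_distrib]
      map_smul' := fun c Z => by
        simp only [Matrix.smul_apply, smul_eq_mul, RingHom.id_apply, Finset.mul_sum]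
        refine Finset.sum_congr rfl fun n _ => Finset.sum_congr rfl fun I _ =>
          Finset.sum_congr rfl fun J _ => by ring }
  refine ⟨Λ, fun g => ?_⟩
  conv_rhs => rw [hβ]
  simp only [map_sum, map_mul, ev_C, ev_xm]
  change ∑ n : Fin (D + 1), ∑ I : Fin n → B, ∑ J : Fin n → B,
        β n I J * (bd D g) ⟨n, I⟩ ⟨n, J⟩ = _
  refine Finset.sum_congr rfl fun n _ => Finset.sum_congr rfl fun I _ =>
    Finset.sum_congr rfl fun J _ => ?_
  rw [bd_apply, blockDiagonal'_apply_eq]

/-- A linear combination of tensor powers of elements of `G` satisfies the equations of `G`. -/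
lemma ev_of_span {D : ℕ} {G : Set (Matrix B B ℂ)} {g : Matrix B B ℂ}
    (hg : bd D g ∈ Submodule.span ℂ (bd D '' G)) {p : MvPolynomial (B × B) ℂ}
    (hp : ∀ h ∈ G, ev h p = 0) (hD : p.totalDegree ≤ D) : ev g p = 0 := by
  obtain ⟨Λ, hΛ⟩ := exists_fun hD
  rw [← hΛ]
  have h1 : ∀ Z ∈ Submodule.span ℂ (bd D '' G), Λ Z = 0 := by
    intro Z hZ
    induction hZ using Submodule.span_induction with
    | mem x hx =>
      obtain ⟨h, hh, rfl⟩ := hx
      rw [hΛ, hp h hh]
    | zero => exact map_zero _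
    | add x y _ _ hx hy => rw [map_add, hx, hy, add_zero]
    | smul c x _ hx => rw [map_smul, hx, smul_zero]
  exact h1 _ hg

lemma span_mul {D : ℕ} {G : Submonoid (Matrix B B ℂ)} {g h : Matrix B B ℂ}
    (hg : bd D g ∈ Submodule.span ℂ (bd D '' (G : Set (Matrix B B ℂ)))) (hh : h ∈ G) :
    bd D (g * h) ∈ Submodule.span ℂ (bd D '' (G : Set (Matrix B B ℂ))) := by
  rw [map_mul]
  have h1 : ∀ Z ∈ Submodule.span ℂ (bd D '' (G : Set (Matrix B B ℂ))), Z * bd D h ∈
      Submodule.span ℂ (bd D '' (G : Set (Matrix B B ℂ))) := by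
    intro Z hZ
    induction hZ using Submodule.span_induction with
    | mem x hx =>
      obtain ⟨k, hk, rfl⟩ := hx
      refine Submodule.subset_span ⟨k * h, G.mul_mem hk hh, ?_⟩
      rw [map_mul]
    | zero => rw [Matrix.zero_mul]; exact Submodule.zero_mem _
    | add x y _ _ hx hy => rw [Matrix.add_mul]; exact Submodule.add_mem _ hx hy
    | smul c x _ hx => rw [Matrix.smul_mul]; exact Submodule.smul_mem _ _ hx
  exact h1 _ hg

/-- The tensor powers of a matrix which commutes with the commutant. -/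
lemma span_of_comm {D : ℕ} {G : Submonoid (Matrix B B ℂ)}
    (hss : SSM ((G.map (bd D) : Submonoid (Matrix (Wd B D) (Wd B D) ℂ)) :
      Set (Matrix (Wd B D) (Wd B D) ℂ))) {g : Matrix B B ℂ}
    (hcom : ∀ n m : ℕ, n ≤ D → m ≤ D → ∀ M : Matrix (Fin n → B) (Fin m → B) ℂ, Comm G M →
      tp (Fin n) g * M = M * tp (Fin m) g) :
    bd D g ∈ Submodule.span ℂ (bd D '' (G : Set (Matrix B B ℂ))) := by
  have h1 : bd D g ∈ Submodule.span ℂ
      ((G.map (bd D) : Submonoid (Matrix (Wd B D) (Wd B D) ℂ)) :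
        Set (Matrix (Wd B D) (Wd B D) ℂ)) := by
    apply double_commutant_ss _ hss
    intro M hM
    have hb : ∀ n m : Fin (D + 1), Comm G
        (Matrix.of fun (I : Fin n → B) (J : Fin m → B) => M ⟨n, I⟩ ⟨m, J⟩) := by
      intro n m g hg
      ext I J
      have h2 := congrFun (congrFun (hM (bd D g) ⟨g, hg, rfl⟩) ⟨n, I⟩) ⟨m, J⟩
      rw [bd_apply, bd_mul_apply, mul_bd_apply] at h2
      rw [Matrix.mul_apply, Matrix.mul_apply]
      exact h2
    ext ⟨n, I⟩ ⟨m, J⟩
    rw [bd_apply, bd_mul_apply, mul_bd_apply]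
    have h3 := congrFun (congrFun (hcom n m (Nat.le_of_lt_succ n.2)
      (Nat.le_of_lt_succ m.2) _ (hb n m)) I) J
    rw [Matrix.mul_apply, Matrix.mul_apply] at h3
    exact h3
  exact h1

/-- **A matrix which fixes the invariants of low degree belongs to the closure of the group.** -/
theorem T6 {w : ℕ} {T : Set (ℤ → Matrix B B ℂ)} (hT : ∀ e ∈ T, curve w e 1 = 1) {D : ℕ}
    (hD : degBound (Fintype.card B) w ≤ D)
    (hss : SSM (((gen w T).map (bd D) : Submonoid (Matrix (Wd B D) (Wd B D) ℂ)) :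
      Set (Matrix (Wd B D) (Wd B D) ℂ))) {g : Matrix B B ℂ} (hu : IsUnit g.det)
    (hcom : ∀ n m : ℕ, n ≤ D → m ≤ D → ∀ M : Matrix (Fin n → B) (Fin m → B) ℂ,
      Comm (gen w T) M → tp (Fin n) g * M = M * tp (Fin m) g)
    {p : MvPolynomial (B × B) ℂ} (hp : p ∈ vanI (gen w T : Set (Matrix B B ℂ))) :
    ev g p = 0 := by
  obtain ⟨hprime, d, hd, ⟨y, hy⟩, hF⟩ := greedy w T hT
  set P := vanI (gen w T : Set (Matrix B B ℂ)) with hPdef
  let Q : Ideal (MvPolynomial (B × B) ℂ) := P.comap (lt g).toRingHom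
  have hQ : ∀ q, q ∈ Q ↔ lt g q ∈ P := fun q => Iff.rfl
  have hQprime : Q.IsPrime := Ideal.comap_isPrime _ _
  have hspan := span_of_comm hss hcom
  have h1 : P ≤ Q := by
    refine separation P Q hprime hQprime d D ⟨y, hy⟩ ⟨fun i => lt g⁻¹ (y i), ?_⟩ ?_ ?_
    · rw [algebraicIndependent_iff]
      intro F hF0
      have h2 : ∀ (I : Ideal (MvPolynomial (B × B) ℂ)) (z : Fin d → MvPolynomial (B × B) ℂ),
          aeval (fun i => Ideal.Quotient.mk I (z i)) F = Ideal.Quotient.mk I (aeval z F) := by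
        intro I z
        exact (congrArg (fun f => f F) (comp_aeval (R := ℂ) z (Ideal.Quotient.mkₐ ℂ I))).symm
      rw [h2, Ideal.Quotient.eq_zero_iff_mem, hQ] at hF0
      have h3 : lt g (aeval (fun i => lt g⁻¹ (y i)) F) = aeval y F := by
        rw [← AlgHom.comp_apply, comp_aeval]
        congr 1
        congr 1
        funext i
        rw [lt_lt, nonsing_inv_mul _ hu, lt_one]
      rw [h3, ← Ideal.Quotient.eq_zero_iff_mem, ← h2] at hF0
      exact (algebraicIndependent_iff.1 hy) F hF0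
    · intro l hl
      obtain ⟨F, h2, h3, h4⟩ := hF l hl
      exact ⟨F, h2, h3.trans ((le_degBound hd).trans hD), h4⟩
    · intro q hq hq'
      rw [hQ, mem_vanI]
      intro x hx
      rw [ev_lt]
      exact ev_of_span (span_mul hspan hx) (fun h hh => (mem_vanI.1 hq) h hh) hq'
  have h2 : lt g p ∈ P := (hQ p).1 (h1 hp)
  have h3 := (mem_vanI.1 h2) 1 (Submonoid.one_mem _)
  rwa [ev_lt, mul_one] at h3

end Pool.Agent.R914.CF
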